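import Mathlib

set_option autoImplicit false

namespace Pool.Agent.LibTypeA

open Polynomial

universe u

/-- A derivation `D` is locally nilpotent. -/
def IsLND {K A : Type u} [Field K] [CommRing A] [Algebra K A] (D : Derivation K A A) : Prop :=
  ∀ a : A, ∃ n : ℕ, (⇑D)^[n] a = 0

/-- The modified Derksen invariant: the subalgebra generated by the kernels of all locally
nilpotent derivations which have a slice. -/
def HDstar (K A : Type u) [Field K] [CommRing A] [Algebra K A] : Subalgebra K A :=
  Algebra.adjoin K {a : A | ∃ D : Derivation K A A, IsLND D ∧ (∃ s : A, D s = 1) ∧ D a = 0}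

/-- `Y = Spec B` is of type A: the modified Derksen invariant of `Y × 𝔸¹` is the whole
coordinate ring `B[X]`. -/
def TypeA (K B : Type u) [Field K] [CommRing B] [Algebra K B] : Prop :=
  HDstar K B[X] = ⊤

/-- The ideal generated by the images of all locally nilpotent derivations. -/
def imageIdeal (K B : Type u) [Field K] [CommRing B] [Algebra K B] : Ideal B :=
  Ideal.span {b : B | ∃ D : Derivation K B B, IsLND D ∧ ∃ f : B, D f = b}

/-- The automorphism `φ` is the exponential of `D`. -/
def IsExpOf {K B : Type u} [Field K] [CommRing B] [Algebra K B] (D : Derivation K B B)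
    (φ : B ≃ₐ[K] B) : Prop :=
  ∀ (b : B) (n : ℕ), (⇑D)^[n] b = 0 →
    φ b = ∑ i ∈ Finset.range n, ((i.factorial : K)⁻¹) • (⇑D)^[i] b

/-- The group generated by all exponentials of locally nilpotent derivations (acting on the
coordinate ring). -/
def SAut (K B : Type u) [Field K] [CommRing B] [Algebra K B] : Subgroup (B ≃ₐ[K] B) :=
  Subgroup.closure {φ | ∃ D : Derivation K B B, IsLND D ∧ IsExpOf D φ}

/-- The point `p` is fixed by the group `SAut`. -/
def IsStable {K B : Type u} [Field K] [CommRing B] [Algebra K B] (p : B →ₐ[K] K) : Prop :=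
  ∀ φ ∈ SAut K B, ∀ b : B, p (φ b) = p b

section LND

variable {K A : Type u} [Field K] [CommRing A] [Algebra K A]

theorem iterate_mul (D : Derivation K A A) (a b : A) (n : ℕ) :
    (⇑D)^[n] (a * b) =
      ∑ ij ∈ Finset.HasAntidiagonal.antidiagonal n, (n.choose ij.1) • ((⇑D)^[ij.1] a * (⇑D)^[ij.2] b) := by
  induction n with
  | zero => simp
  | succ n ih =>
    rw [Function.iterate_succ_apply', ih, map_sum]
    have h := Finset.sum_antidiagonal_choose_succ_nsmul
      (fun i j => (⇑D)^[i] a * (⇑D)^[j] b) n
    rw [h, ← Finset.sum_add_distrib]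
    refine Finset.sum_congr rfl fun ij hij => ?_
    rw [Finset.HasAntidiagonal.mem_antidiagonal] at hij
    have hch : n.choose ij.2 = n.choose ij.1 := by
      rw [← hij]
      exact Nat.choose_symm_add.symm
    rw [map_nsmul, D.leibniz, smul_eq_mul, smul_eq_mul, Function.iterate_succ_apply',
      Function.iterate_succ_apply', hch, ← smul_add]
    congr 1
    ring

theorem iterate_zero_of_le (D : Derivation K A A) {a : A} {n m : ℕ} (h : (⇑D)^[n] a = 0)
    (hnm : n ≤ m) : (⇑D)^[m] a = 0 := by
  obtain ⟨k, rfl⟩ := Nat.exists_eq_add_of_le hnm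
  rw [add_comm, Function.iterate_add_apply, h]
  clear h hnm
  induction k with
  | zero => rfl
  | succ k ih => rw [Function.iterate_succ_apply', ih, map_zero]

/-- A locally nilpotent derivation of a domain of characteristic zero kills units. -/
theorem lnd_unit [IsDomain A] [CharZero A] {D : Derivation K A A} (hD : IsLND D) {u v : A}
    (huv : u * v = 1) : D u = 0 := by
  classical
  have hu := hD u
  have hv := hD v
  have hu0 : u ≠ 0 := left_ne_zero_of_mul_eq_one huv
  have hv0 : v ≠ 0 := right_ne_zero_of_mul_eq_one huv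
  set n := Nat.find hu with hn
  set m := Nat.find hv with hm
  have hn1 : n ≠ 0 := by
    intro h0
    have := Nat.find_spec hu
    rw [← hn, h0] at this
    exact hu0 this
  have hm1 : m ≠ 0 := by
    intro h0
    have := Nat.find_spec hv
    rw [← hm, h0] at this
    exact hv0 this
  have hun : (⇑D)^[n - 1] u ≠ 0 := Nat.find_min hu (by omega)
  have hvm : (⇑D)^[m - 1] v ≠ 0 := Nat.find_min hv (by omega)
  have hun' : (⇑D)^[n] u = 0 := Nat.find_spec hu
  have hvm' : (⇑D)^[m] v = 0 := Nat.find_spec hv
  -- the top term
  have htop : (⇑D)^[(n - 1) + (m - 1)] (u * v) =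
      (((n - 1) + (m - 1)).choose (n - 1)) • ((⇑D)^[n - 1] u * (⇑D)^[m - 1] v) := by
    rw [iterate_mul]
    rw [Finset.sum_eq_single ((n - 1), (m - 1))]
    · rintro ⟨i, j⟩ hij hne
      rw [Finset.HasAntidiagonal.mem_antidiagonal] at hij
      simp only at hij ⊢
      rcases lt_trichotomy i (n - 1) with h | h | h
      · have : (⇑D)^[j] v = 0 := iterate_zero_of_le D hvm' (by omega)
        rw [this, mul_zero, smul_zero]
      · exfalso
        apply hne
        rw [Prod.mk.injEq]
        omega
      · have : (⇑D)^[i] u = 0 := iterate_zero_of_le D hun' (by omega)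
        rw [this, zero_mul, smul_zero]
    · intro h
      exfalso
      apply h
      rw [Finset.HasAntidiagonal.mem_antidiagonal]
  by_contra hne
  have hn2 : n ≠ 1 := by
    intro h1
    rw [h1] at hun'
    exact hne hun'
  have hpos : 0 < (n - 1) + (m - 1) := by omega
  obtain ⟨k, hk⟩ : ∃ k, (n - 1) + (m - 1) = k + 1 := ⟨(n - 1) + (m - 1) - 1, by omega⟩
  have hzero : (⇑D)^[(n - 1) + (m - 1)] (u * v) = 0 := by
    rw [huv, hk]
    apply iterate_zero_of_le D (n := 1) _ (by omega)
    rw [Function.iterate_one]
    exact D.map_one_eq_zero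
  rw [hzero] at htop
  have h1 : (((n - 1) + (m - 1)).choose (n - 1)) ≠ 0 :=
    (Nat.choose_pos (by omega)).ne'
  rw [nsmul_eq_mul] at htop
  have h2 := mul_ne_zero (Nat.cast_ne_zero (R := A).mpr h1) (mul_ne_zero hun hvm)
  exact h2 htop.symm

/-- conjugate of a derivation by an automorphism -/
noncomputable def conj (D : Derivation K A A) (θ : A ≃ₐ[K] A) : Derivation K A A :=
  Derivation.mk' (θ.toLinearMap ∘ₗ D.toLinearMap ∘ₗ θ.symm.toLinearMap) (by
    intro a b
    simp [D.leibniz])

theorem conj_apply (D : Derivation K A A) (θ : A ≃ₐ[K] A) (a : A) :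
    conj D θ a = θ (D (θ.symm a)) := rfl

theorem conj_iterate (D : Derivation K A A) (θ : A ≃ₐ[K] A) (n : ℕ) (a : A) :
    (⇑(conj D θ))^[n] a = θ ((⇑D)^[n] (θ.symm a)) := by
  induction n generalizing a with
  | zero => simp
  | succ n ih =>
    rw [Function.iterate_succ_apply, ih, conj_apply, Function.iterate_succ_apply]
    simp

end LND

section Cyl

variable {K B : Type u} [Field K] [CommRing B] [Algebra K B]

/-- the derivative along the line -/
noncomputable def dX : Derivation K B[X] B[X] :=
  (Polynomial.derivative' (R := B)).restrictScalars K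

theorem dX_apply (f : B[X]) : dX (K := K) f = derivative f := rfl

theorem dX_iterate (n : ℕ) (f : B[X]) : (⇑(dX (K := K) (B := B)))^[n] f = derivative^[n] f := by
  induction n generalizing f with
  | zero => rfl
  | succ n ih => rw [Function.iterate_succ_apply, ih, Function.iterate_succ_apply, dX_apply]

/-- the modified Derksen invariant of the cylinder contains all images of `B` under
automorphisms of the cylinder -/
theorem mem_HDstar (θ : B[X] ≃ₐ[K] B[X]) (b : B) : θ (C b) ∈ HDstar K B[X] := by
  apply Algebra.subset_adjoin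
  refine ⟨conj dX θ, ?_, ⟨θ X, ?_⟩, ?_⟩
  · intro f
    refine ⟨(θ.symm f).natDegree + 1, ?_⟩
    rw [conj_iterate, dX_iterate, Polynomial.iterate_derivative_eq_zero (by omega), map_zero]
  · rw [conj_apply, AlgEquiv.symm_apply_apply, dX_apply, derivative_X, map_one]
  · rw [conj_apply, AlgEquiv.symm_apply_apply, dX_apply, derivative_C, map_zero]

theorem typeA_of_X_mem (h : (X : B[X]) ∈ HDstar K B[X]) : TypeA K B := by
  unfold TypeA
  rw [eq_top_iff]
  intro f _
  induction f using Polynomial.induction_on' with
  | add p q hp hq => exact add_mem (hp trivial) (hq trivial)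
  | monomial n b =>
    rw [← Polynomial.C_mul_X_pow_eq_monomial]
    apply mul_mem
    · have := mem_HDstar (K := K) (AlgEquiv.refl) b
      simpa using this
    · exact pow_mem h n

end Cyl

end Pool.Agent.LibTypeA
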