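import Mathlib
import Pool.Agent.LibTypeA.Basic

set_option autoImplicit false

namespace Pool.Agent.LibTypeA

open Polynomial

universe u

variable {K R : Type u} [Field K] [CommRing R] [Algebra K R]

/-- the polynomial `x (x y - 1)` in the variable `y` -/
noncomputable def aa (x : R) : R[X] := C x * (C x * X - 1)

/-- the ring `R[y][z] / (z ^ 2 = x (x y - 1))` -/
abbrev BB (x : R) : Type u := QuadraticAlgebra R[X] (aa x) 0

/-- constants -/
noncomputable def cc (x : R) (r : R) : BB x := ⟨C r, 0⟩
/-- the coordinate `y` -/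
noncomputable def yy (x : R) : BB x := ⟨X, 0⟩
/-- the coordinate `z` -/
noncomputable def zz (x : R) : BB x := ⟨0, 1⟩

theorem re_mul' {x : R} (b c : BB x) : (b * c).re = b.re * c.re + aa x * b.im * c.im := rfl
theorem im_mul' {x : R} (b c : BB x) :
    (b * c).im = b.re * c.im + b.im * c.re + 0 * b.im * c.im := rfl
theorem re_one' {x : R} : (1 : BB x).re = 1 := rfl
theorem im_one' {x : R} : (1 : BB x).im = 0 := rfl
theorem re_add' {x : R} (b c : BB x) : (b + c).re = b.re + c.re := rfl
theorem im_add' {x : R} (b c : BB x) : (b + c).im = b.im + c.im := rfl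
theorem re_sub' {x : R} (b c : BB x) : (b - c).re = b.re - c.re := rfl
theorem im_sub' {x : R} (b c : BB x) : (b - c).im = b.im - c.im := rfl

theorem zz_sq (x : R) : zz x ^ 2 = cc x x * (cc x x * yy x - 1) := by
  rw [sq]
  ext1
  · have h1 : (zz x * zz x).re = aa x := by rw [re_mul']; simp [zz]
    have h2 : (cc x x * (cc x x * yy x - 1)).re = C x * (C x * X - 1) := by
      rw [re_mul', re_sub', im_sub', re_mul', im_mul', re_one', im_one']; simp [cc, yy]
    rw [h1, h2]
    rfl
  · have h1 : (zz x * zz x).im = 0 := by rw [im_mul']; simp [zz]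
    have h2 : (cc x x * (cc x x * yy x - 1)).im = 0 := by
      rw [im_mul', re_sub', im_sub', re_mul', im_mul', re_one', im_one']; simp [cc, yy]
    rw [h1, h2]

/-- constants as an algebra homomorphism -/
noncomputable def ccHom (K : Type u) [Field K] [Algebra K R] (x : R) : R →ₐ[K] BB x where
  toFun := cc x
  map_one' := by ext1 <;> simp [cc, re_one', im_one']
  map_mul' r s := by ext1 <;> simp [cc]
  map_zero' := by ext1 <;> simp [cc]
  map_add' r s := by ext1 <;> simp [cc]
  commutes' k := by
    ext1
    · rfl
    · rfl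

/-- embedding of polynomials -/
noncomputable def pp (x : R) (p : R[X]) : BB x := ⟨p, 0⟩

theorem pp_add (x : R) (p q : R[X]) : pp x (p + q) = pp x p + pp x q := by
  ext1 <;> simp [pp]
theorem pp_mul (x : R) (p q : R[X]) : pp x (p * q) = pp x p * pp x q := by
  ext1 <;> simp [pp]

theorem BB_decomp {x : R} (b : BB x) : b = pp x b.re + pp x b.im * zz x := by
  ext1 <;> simp [pp, zz]

/-- universal property -/
noncomputable def liftB {S : Type u} [CommRing S] [Algebra K S] (x : R) (f : R →ₐ[K] S)
    (η ζ : S) (h : ζ ^ 2 = f x * (f x * η - 1)) : BB x →ₐ[K] S where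
  toFun b := eval₂ (f : R →+* S) η b.re + eval₂ (f : R →+* S) η b.im * ζ
  map_one' := by simp [re_one', im_one']
  map_mul' b c := by
    have ha : eval₂ (f : R →+* S) η (aa x) = ζ ^ 2 := by
      rw [h]
      simp [aa, eval₂_mul, eval₂_sub]
    simp only [re_mul', im_mul', eval₂_add, eval₂_mul, ha, zero_mul, add_zero]
    ring
  map_zero' := by simp
  map_add' b c := by
    simp only [re_add', im_add', eval₂_add]
    ring
  commutes' k := by
    have : (algebraMap K (BB x) k) = ⟨C (algebraMap K R k), 0⟩ := rfl
    rw [this]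
    simp

theorem liftB_cc {S : Type u} [CommRing S] [Algebra K S] (x : R) (f : R →ₐ[K] S)
    (η ζ : S) (h : ζ ^ 2 = f x * (f x * η - 1)) (r : R) : liftB x f η ζ h (cc x r) = f r := by
  show eval₂ (f : R →+* S) η (C r) + eval₂ (f : R →+* S) η 0 * ζ = f r
  simp

theorem liftB_yy {S : Type u} [CommRing S] [Algebra K S] (x : R) (f : R →ₐ[K] S)
    (η ζ : S) (h : ζ ^ 2 = f x * (f x * η - 1)) : liftB x f η ζ h (yy x) = η := by
  show eval₂ (f : R →+* S) η X + eval₂ (f : R →+* S) η 0 * ζ = η
  simp

theorem liftB_zz {S : Type u} [CommRing S] [Algebra K S] (x : R) (f : R →ₐ[K] S)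
    (η ζ : S) (h : ζ ^ 2 = f x * (f x * η - 1)) : liftB x f η ζ h (zz x) = ζ := by
  show eval₂ (f : R →+* S) η 0 + eval₂ (f : R →+* S) η 1 * ζ = ζ
  simp

theorem liftB_ext {S : Type u} [CommRing S] [Algebra K S] {x : R} {φ ψ : BB x →ₐ[K] S}
    (h1 : ∀ r, φ (cc x r) = ψ (cc x r)) (h2 : φ (yy x) = ψ (yy x)) (h3 : φ (zz x) = ψ (zz x)) :
    φ = ψ := by
  have hp : ∀ p : R[X], φ (pp x p) = ψ (pp x p) := by
    intro p
    induction p using Polynomial.induction_on' with
    | add p q hp hq => rw [pp_add, map_add, map_add, hp, hq]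
    | monomial n r =>
      have : pp x (monomial n r) = cc x r * yy x ^ n := by
        rw [← Polynomial.C_mul_X_pow_eq_monomial, pp_mul]
        congr 1
        induction n with
        | zero => ext1 <;> simp [pp, re_one', im_one']
        | succ n ih => rw [pow_succ, pow_succ, pp_mul, ih]; rfl
      rw [this, map_mul, map_mul, map_pow, map_pow, h1, h2]
  ext b
  rw [BB_decomp b, map_add, map_add, map_mul, map_mul, hp, hp, h3]

section Domain

variable [IsDomain R]

theorem natDegree_aa {x : R} (hx : x ≠ 0) : (aa x).natDegree = 1 := by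
  have : aa x = C (x * x) * X + C (-x) := by
    unfold aa
    rw [C_mul, C_neg]
    ring
  rw [this]
  exact natDegree_linear (mul_ne_zero hx hx)

theorem aa_ne {x : R} (hx : x ≠ 0) : aa x ≠ 0 := by
  intro h
  have := natDegree_aa hx
  rw [h] at this
  simp at this

omit [IsDomain R] in
theorem norm_eq {x : R} (b : BB x) :
    QuadraticAlgebra.norm b = b.re ^ 2 - aa x * b.im ^ 2 := by
  rw [QuadraticAlgebra.norm_def]
  ring

theorem natDegree_im {x : R} (hx : x ≠ 0) {q : R[X]} (hq : q ≠ 0) :
    (aa x * q ^ 2).natDegree = 2 * q.natDegree + 1 := by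
  rw [natDegree_mul (aa_ne hx) (pow_ne_zero 2 hq), natDegree_aa hx, natDegree_pow]
  ring

theorem dg_im {x : R} (hx : x ≠ 0) {b : BB x} (him : b.im ≠ 0)
    (h : b.re.natDegree ≤ b.im.natDegree) :
    (QuadraticAlgebra.norm b).natDegree = 2 * b.im.natDegree + 1 := by
  rw [norm_eq, natDegree_sub_eq_right_of_natDegree_lt, natDegree_im hx him]
  rw [natDegree_im hx him, natDegree_pow]
  omega

theorem dg_re {x : R} (hx : x ≠ 0) {b : BB x}
    (h : b.im = 0 ∨ b.im.natDegree < b.re.natDegree) :
    (QuadraticAlgebra.norm b).natDegree = 2 * b.re.natDegree := by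
  rw [norm_eq]
  by_cases him : b.im = 0
  · rw [him]
    simp
  · rcases h with h | h
    · exact absurd h him
    · rw [natDegree_sub_eq_left_of_natDegree_lt, natDegree_pow]
      rw [natDegree_im hx him, natDegree_pow]
      omega

theorem norm_ne_zero {x : R} (hx : x ≠ 0) {b : BB x} (hb : b ≠ 0) :
    QuadraticAlgebra.norm b ≠ 0 := by
  intro h
  by_cases him : b.im = 0
  · rw [norm_eq, him] at h
    simp at h
    apply hb
    ext1
    · simp [h]
    · simp [him]
  · rcases le_or_gt b.re.natDegree b.im.natDegree with h1 | h1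
    · have := dg_im hx him h1
      rw [h] at this
      simp at this
    · have := dg_re hx (Or.inr h1)
      rw [h] at this
      simp at this
      omega

theorem isDomain_BB {x : R} (hx : x ≠ 0) : IsDomain (BB x) := by
  have : NoZeroDivisors (BB x) := ⟨by
    intro b c hbc
    by_contra hcon
    push Not at hcon
    have h1 := norm_ne_zero hx hcon.1
    have h2 := norm_ne_zero hx hcon.2
    have h3 := mul_ne_zero h1 h2
    rw [← map_mul, hbc] at h3
    exact h3 (QuadraticAlgebra.norm_zero)⟩
  have : Nontrivial (BB x) := ⟨0, 1, by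
    intro h
    have h1 := congrArg QuadraticAlgebra.re h
    rw [re_one'] at h1
    simp at h1⟩
  exact NoZeroDivisors.to_isDomain _

/-- the basic derivation on elements: `z ↦ x ^ 2`, `y ↦ 2 z` -/
noncomputable def EE {x : R} (b : BB x) : BB x :=
  ⟨2 * (aa x * derivative b.im) + C (x ^ 2) * b.im, 2 * derivative b.re⟩

variable [CharZero R]

theorem natDegree_two_mul (p : R[X]) : (2 * p).natDegree = p.natDegree := by
  have : (2 : R[X]) = C 2 := rfl
  rw [this]
  exact natDegree_C_mul two_ne_zero

theorem natDegree_derivative' {p : R[X]} (hp : p.natDegree ≠ 0) :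
    (derivative p).natDegree = p.natDegree - 1 ∧ derivative p ≠ 0 := by
  have h1 : (derivative p).coeff (p.natDegree - 1) ≠ 0 := by
    rw [coeff_derivative]
    have h2 : p.natDegree - 1 + 1 = p.natDegree := by omega
    rw [h2]
    apply mul_ne_zero
    · rw [coeff_natDegree]
      intro h
      rw [leadingCoeff_eq_zero] at h
      rw [h] at hp
      exact hp natDegree_zero
    · exact_mod_cast (by omega : p.natDegree - 1 + 1 ≠ 0)
  constructor
  · exact natDegree_eq_of_le_of_coeff_ne_zero (natDegree_derivative_le p) h1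
  · intro h
    rw [h] at h1
    exact h1 (coeff_zero _)

/-- the real part of `EE` has the same degree as the imaginary part -/
theorem natDegree_EE_re {x : R} (hx : x ≠ 0) {q : R[X]} (hq : q ≠ 0) :
    (2 * (aa x * derivative q) + C (x ^ 2) * q).natDegree = q.natDegree ∧
      2 * (aa x * derivative q) + C (x ^ 2) * q ≠ 0 := by
  have hlead : (2 * (aa x * derivative q) + C (x ^ 2) * q).coeff q.natDegree =
      (2 * q.natDegree + 1) * x ^ 2 * q.leadingCoeff := by
    have h1 : 2 * (aa x * derivative q) = C (2 * x ^ 2) * (X * derivative q)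
        - C (2 * x) * derivative q := by
      have h2 : (2 : R[X]) = C 2 := rfl
      unfold aa
      rw [h2, C_mul, C_mul, C_pow]
      ring
    rw [h1, coeff_add, coeff_sub, coeff_C_mul, coeff_C_mul, coeff_C_mul]
    have h3 : (derivative q).coeff q.natDegree = 0 := by
      rw [coeff_derivative, coeff_eq_zero_of_natDegree_lt (Nat.lt_succ_self _), zero_mul]
    have h4 : (X * derivative q).coeff q.natDegree = q.natDegree * q.leadingCoeff := by
      rcases Nat.eq_zero_or_pos q.natDegree with h0 | h0
      · rw [h0]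
        simp
      · obtain ⟨k, hk⟩ : ∃ k, q.natDegree = k + 1 := ⟨q.natDegree - 1, by omega⟩
        rw [hk, coeff_X_mul, coeff_derivative, leadingCoeff, hk]
        push_cast
        ring
    rw [h3, h4, coeff_natDegree]
    ring
  have hne : (2 * (aa x * derivative q) + C (x ^ 2) * q).coeff q.natDegree ≠ 0 := by
    rw [hlead]
    apply mul_ne_zero (mul_ne_zero _ (pow_ne_zero 2 hx))
    · intro h
      rw [leadingCoeff_eq_zero] at h
      exact hq h
    · exact_mod_cast (by omega : 2 * q.natDegree + 1 ≠ 0)
  constructor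
  · apply natDegree_eq_of_le_of_coeff_ne_zero _ hne
    apply (natDegree_add_le _ _).trans
    apply max_le
    · rw [natDegree_two_mul]
      rcases Nat.eq_zero_or_pos q.natDegree with h0 | h0
      · have : derivative q = 0 := derivative_of_natDegree_zero h0
        rw [this]
        simp
      · apply (natDegree_mul_le).trans
        rw [natDegree_aa hx]
        have := natDegree_derivative_le q
        omega
    · exact natDegree_C_mul_le _ _
  · intro h
    rw [h] at hne
    exact hne (coeff_zero _)

/-- `EE` lowers the degree by one -/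
theorem dg_EE {x : R} (hx : x ≠ 0) {b : BB x}
    (hb : (QuadraticAlgebra.norm b).natDegree ≠ 0) :
    EE b ≠ 0 ∧ (QuadraticAlgebra.norm (EE b)).natDegree + 1 =
      (QuadraticAlgebra.norm b).natDegree := by
  by_cases him : b.im = 0
  · have h1 := dg_re hx (Or.inl him)
    rw [h1] at hb ⊢
    have hre : b.re.natDegree ≠ 0 := by omega
    obtain ⟨h2, h3⟩ := natDegree_derivative' hre
    have h4 : (EE b).re = 0 := by
      show 2 * (aa x * derivative b.im) + C (x ^ 2) * b.im = 0
      rw [him]; simp
    have h5 : (EE b).im = 2 * derivative b.re := rfl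
    have h6 : (EE b).im ≠ 0 := by
      rw [h5]
      exact mul_ne_zero two_ne_zero h3
    refine ⟨fun h => h6 (by rw [h]; rfl), ?_⟩
    rw [dg_im hx h6 (by rw [h4]; simp), h5, natDegree_two_mul, h2]
    omega
  · obtain ⟨h7, h8⟩ := natDegree_EE_re hx him
    rcases le_or_gt b.re.natDegree b.im.natDegree with h1 | h1
    · have h9 : (EE b).re ≠ 0 := h8
      refine ⟨fun h => h9 (by rw [h]; rfl), ?_⟩
      rw [dg_im hx him h1]
      have h10 : (EE b).im = 0 ∨ (EE b).im.natDegree < (EE b).re.natDegree := by
        have h11 : (EE b).re.natDegree = b.im.natDegree := h7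
        have h12 : (EE b).im = 2 * derivative b.re := rfl
        rcases Nat.eq_zero_or_pos b.re.natDegree with h0 | h0
        · left
          rw [h12, derivative_of_natDegree_zero h0, mul_zero]
        · right
          rw [h11, h12, natDegree_two_mul, (natDegree_derivative' (by omega)).1]
          omega
      rw [dg_re hx h10]
      have h11 : (EE b).re.natDegree = b.im.natDegree := h7
      rw [h11]
    · have h0 : b.re.natDegree ≠ 0 := by omega
      obtain ⟨h2, h3⟩ := natDegree_derivative' h0
      have h5 : (EE b).im = 2 * derivative b.re := rfl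
      have h6 : (EE b).im ≠ 0 := by
        rw [h5]
        exact mul_ne_zero two_ne_zero h3
      refine ⟨fun h => h6 (by rw [h]; rfl), ?_⟩
      rw [dg_re hx (Or.inr h1), dg_im hx h6, h5, natDegree_two_mul, h2]
      · omega
      · have h11 : (EE b).re.natDegree = b.im.natDegree := h7
        rw [h5, natDegree_two_mul, h2, h11]
        omega

end Domain

end Pool.Agent.LibTypeA
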