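import Mathlib
import Pool.Agent.LibTypeA.Ring

set_option autoImplicit false

namespace Pool.Agent.LibTypeA

open Polynomial

universe u

variable {K R : Type u} [Field K] [CommRing R] [Algebra K R] {x : R}

/-- constants in the cylinder -/
noncomputable def kc (K : Type u) [Field K] [Algebra K R] (x : R) : R →ₐ[K] (BB x)[X] :=
  (Polynomial.CAlgHom (R := K)).comp (ccHom K x)

theorem kc_apply (r : R) : kc K x r = C (cc x r) := rfl

/-- endomorphisms of the cylinder -/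
noncomputable def cylHom (x : R) (η ζ ω : (BB x)[X])
    (h : ζ ^ 2 = kc K x x * (kc K x x * η - 1)) : (BB x)[X] →ₐ[K] (BB x)[X] :=
  Polynomial.eval₂AlgHom (liftB x (kc K x) η ζ h) ω (fun _ => Commute.all _ _)

theorem cylHom_cc (η ζ ω : (BB x)[X]) (h : ζ ^ 2 = kc K x x * (kc K x x * η - 1)) (r : R) :
    cylHom x η ζ ω h (C (cc x r)) = C (cc x r) := by
  unfold cylHom
  show eval₂ _ _ _ = _
  rw [eval₂_C]
  exact liftB_cc x _ η ζ h r

theorem cylHom_yy (η ζ ω : (BB x)[X]) (h : ζ ^ 2 = kc K x x * (kc K x x * η - 1)) :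
    cylHom x η ζ ω h (C (yy x)) = η := by
  unfold cylHom
  show eval₂ _ _ _ = _
  rw [eval₂_C]
  exact liftB_yy x _ η ζ h

theorem cylHom_zz (η ζ ω : (BB x)[X]) (h : ζ ^ 2 = kc K x x * (kc K x x * η - 1)) :
    cylHom x η ζ ω h (C (zz x)) = ζ := by
  unfold cylHom
  show eval₂ _ _ _ = _
  rw [eval₂_C]
  exact liftB_zz x _ η ζ h

theorem cylHom_X (η ζ ω : (BB x)[X]) (h : ζ ^ 2 = kc K x x * (kc K x x * η - 1)) :
    cylHom x η ζ ω h X = ω := by
  unfold cylHom
  show eval₂ _ _ _ = _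
  rw [eval₂_X]

theorem cyl_ext {S : Type u} [CommRing S] [Algebra K S] {φ ψ : (BB x)[X] →ₐ[K] S}
    (h1 : ∀ r, φ (C (cc x r)) = ψ (C (cc x r))) (h2 : φ (C (yy x)) = ψ (C (yy x)))
    (h3 : φ (C (zz x)) = ψ (C (zz x))) (h4 : φ X = ψ X) : φ = ψ := by
  apply Polynomial.algHom_ext' _ h4
  exact liftB_ext h1 h2 h3

/-- `x` on the cylinder -/
noncomputable def cx (x : R) : (BB x)[X] := C (cc x x)
/-- `y` on the cylinder -/
noncomputable def cy (x : R) : (BB x)[X] := C (yy x)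
/-- `z` on the cylinder -/
noncomputable def cz (x : R) : (BB x)[X] := C (zz x)

theorem cz_sq (x : R) : cz x ^ 2 = cx x * (cx x * cy x - 1) := by
  unfold cz cx cy
  rw [← C_pow, zz_sq, C_mul, C_sub, C_mul, C_1]

theorem kc_x : kc K x x = cx x := rfl

theorem cylHom_cx (η ζ ω : (BB x)[X]) (h : ζ ^ 2 = kc K x x * (kc K x x * η - 1)) :
    cylHom x η ζ ω h (cx x) = cx x := cylHom_cc η ζ ω h x

theorem cylHom_cy (η ζ ω : (BB x)[X]) (h : ζ ^ 2 = kc K x x * (kc K x x * η - 1)) :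
    cylHom x η ζ ω h (cy x) = η := cylHom_yy η ζ ω h

theorem cylHom_cz (η ζ ω : (BB x)[X]) (h : ζ ^ 2 = kc K x x * (kc K x x * η - 1)) :
    cylHom x η ζ ω h (cz x) = ζ := cylHom_zz η ζ ω h

theorem fam1_key (x : R) (l : ℤ) : (cz x + (l : (BB x)[X]) * X * cx x ^ 2) ^ 2 =
      kc K x x * (kc K x x * (cy x + 2 * (l : (BB x)[X]) * X * cz x +
        (l : (BB x)[X]) ^ 2 * X ^ 2 * cx x ^ 2) - 1) := by
  rw [kc_x]
  linear_combination cz_sq x

/-- first family of endomorphisms -/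
noncomputable def th1 (K : Type u) [Field K] [Algebra K R] (x : R) (l : ℤ) :
    (BB x)[X] →ₐ[K] (BB x)[X] :=
  cylHom x _ _ X (fam1_key x l)

theorem th1_cx (l : ℤ) : th1 K x l (cx x) = cx x := cylHom_cx _ _ _ _
theorem th1_cy (l : ℤ) : th1 K x l (cy x) =
    cy x + 2 * (l : (BB x)[X]) * X * cz x + (l : (BB x)[X]) ^ 2 * X ^ 2 * cx x ^ 2 :=
  cylHom_cy _ _ _ _
theorem th1_cz (l : ℤ) : th1 K x l (cz x) = cz x + (l : (BB x)[X]) * X * cx x ^ 2 :=
  cylHom_cz _ _ _ _
theorem th1_X (l : ℤ) : th1 K x l X = X := cylHom_X _ _ _ _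

/-- first family: `exp (l w δ)` -/
theorem fam1 (x : R) (l : ℤ) : ∃ θ : (BB x)[X] ≃ₐ[K] (BB x)[X],
    θ (cy x) = cy x + 2 * (l : (BB x)[X]) * X * cz x + (l : (BB x)[X]) ^ 2 * X ^ 2 * cx x ^ 2 ∧
    θ (cz x) = cz x + (l : (BB x)[X]) * X * cx x ^ 2 := by
  have k1 : ∀ l : ℤ, (th1 K x l).comp (th1 K x (-l)) = AlgHom.id K _ := by
    intro l
    apply cyl_ext
    · intro r
      show th1 K x l (th1 K x (-l) (C (cc x r))) = C (cc x r)
      unfold th1
      rw [cylHom_cc, cylHom_cc]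
    · show th1 K x l (th1 K x (-l) (cy x)) = cy x
      rw [th1_cy, map_add, map_add, map_mul, map_mul, map_mul, map_mul, map_mul, map_pow,
        map_pow, map_pow, map_intCast, map_ofNat, th1_cy, th1_cz, th1_cx, th1_X]
      push_cast
      ring
    · show th1 K x l (th1 K x (-l) (cz x)) = cz x
      rw [th1_cz, map_add, map_mul, map_mul, map_pow, map_intCast, th1_cz, th1_cx, th1_X]
      push_cast
      ring
    · show th1 K x l (th1 K x (-l) X) = X
      rw [th1_X, th1_X]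
  have k2 := k1 (-l)
  rw [neg_neg] at k2
  exact ⟨AlgEquiv.ofAlgHom (th1 K x l) (th1 K x (-l)) (k1 l) k2, th1_cy l, th1_cz l⟩

/-- the invariant `q` -/
noncomputable def qq (x : R) : (BB x)[X] := cx x * cy x + 2 * cz x * X + cx x * X ^ 2

/-- the element `g` with `x g = 2 z q` -/
noncomputable def gg (x : R) : (BB x)[X] :=
  2 * cz x * cy x + 4 * (cx x * cy x - 1) * X + 2 * cz x * X ^ 2

theorem cx_gg (x : R) : cx x * gg x = 2 * cz x * qq x := by
  unfold gg qq
  linear_combination (-4 * X) * cz_sq x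

theorem fam2_key (x : R) (l : ℤ) : (cz x + (l : (BB x)[X]) * cx x * qq x) ^ 2 =
      kc K x x * (kc K x x * (cy x + (l : (BB x)[X]) * gg x + (l : (BB x)[X]) ^ 2 * qq x ^ 2)
        - 1) := by
  rw [kc_x]
  linear_combination cz_sq x - (l : (BB x)[X]) * cx x * cx_gg x

/-- second family of endomorphisms -/
noncomputable def th2 (K : Type u) [Field K] [Algebra K R] (x : R) (l : ℤ) :
    (BB x)[X] →ₐ[K] (BB x)[X] :=
  cylHom x _ _ (X - (l : (BB x)[X]) * qq x) (fam2_key x l)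

theorem th2_cx (l : ℤ) : th2 K x l (cx x) = cx x := cylHom_cx _ _ _ _
theorem th2_cy (l : ℤ) : th2 K x l (cy x) =
    cy x + (l : (BB x)[X]) * gg x + (l : (BB x)[X]) ^ 2 * qq x ^ 2 := cylHom_cy _ _ _ _
theorem th2_cz (l : ℤ) : th2 K x l (cz x) = cz x + (l : (BB x)[X]) * cx x * qq x :=
  cylHom_cz _ _ _ _
theorem th2_X (l : ℤ) : th2 K x l X = X - (l : (BB x)[X]) * qq x := cylHom_X _ _ _ _

theorem th2_qq (l : ℤ) : th2 K x l (qq x) = qq x := by
  have h : th2 K x l (qq x) = th2 K x l (cx x) * th2 K x l (cy x) +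
      2 * th2 K x l (cz x) * th2 K x l X + th2 K x l (cx x) * (th2 K x l X) ^ 2 := by
    unfold qq
    simp only [map_add, map_mul, map_pow, map_ofNat]
  rw [h, th2_cx, th2_cy, th2_cz, th2_X]
  have h1 : qq x = cx x * cy x + 2 * cz x * X + cx x * X ^ 2 := rfl
  linear_combination (l : (BB x)[X]) * cx_gg x - h1

theorem th2_gg [IsDomain R] (hx : x ≠ 0) (l : ℤ) :
    th2 K x l (gg x) = gg x + 2 * (l : (BB x)[X]) * qq x ^ 2 := by
  have := isDomain_BB hx
  have hcx : cx x ≠ 0 := by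
    intro h
    unfold cx at h
    rw [C_eq_zero] at h
    have h1 := congrArg QuadraticAlgebra.re h
    have h2 : (C x : R[X]) = 0 := h1
    rw [C_eq_zero] at h2
    exact hx h2
  apply mul_left_cancel₀ hcx
  have h1 := congrArg (th2 K x l) (cx_gg x)
  rw [map_mul, map_mul, map_mul, th2_cx, th2_cz, th2_qq, map_ofNat] at h1
  rw [h1]
  linear_combination - cx_gg x

theorem fam2 [IsDomain R] (hx : x ≠ 0) (l : ℤ) : ∃ θ : (BB x)[X] ≃ₐ[K] (BB x)[X],
    θ (cy x) = cy x + (l : (BB x)[X]) * gg x + (l : (BB x)[X]) ^ 2 * qq x ^ 2 := by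
  have k1 : ∀ l : ℤ, (th2 K x l).comp (th2 K x (-l)) = AlgHom.id K _ := by
    intro l
    apply cyl_ext
    · intro r
      show th2 K x l (th2 K x (-l) (C (cc x r))) = C (cc x r)
      unfold th2
      rw [cylHom_cc, cylHom_cc]
    · show th2 K x l (th2 K x (-l) (cy x)) = cy x
      rw [th2_cy, map_add, map_add, map_mul, map_mul, map_pow, map_pow, map_intCast, th2_cy,
        th2_gg hx, th2_qq]
      push_cast
      ring
    · show th2 K x l (th2 K x (-l) (cz x)) = cz x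
      rw [th2_cz, map_add, map_mul, map_mul, map_intCast, th2_cz, th2_cx, th2_qq]
      push_cast
      ring
    · show th2 K x l (th2 K x (-l) X) = X
      rw [th2_X, map_sub, map_mul, map_intCast, th2_X, th2_qq]
      push_cast
      ring
  have k2 := k1 (-l)
  rw [neg_neg] at k2
  exact ⟨AlgEquiv.ofAlgHom (th2 K x l) (th2 K x (-l)) (k1 l) k2, th2_cy l⟩

/-- the reflection `w ↦ - w` -/
noncomputable def sig (K : Type u) [Field K] [Algebra K R] (x : R) :
    (BB x)[X] ≃ₐ[K] (BB x)[X] :=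
  (algEquivAevalNegX (R := BB x)).restrictScalars K

theorem sig_C (b : BB x) : sig K x (C b) = C b := by
  show aeval (-X) (C b) = C b
  simp

theorem sig_X : sig K x (X : (BB x)[X]) = - X := by
  show aeval (-X) X = -X
  simp

theorem typeA_BB [IsDomain R] [CharZero K] (hx : x ≠ 0) : TypeA K (BB x) := by
  apply typeA_of_X_mem
  set H := HDstar K (BB x)[X] with hH
  have hC : ∀ b : BB x, (C b : (BB x)[X]) ∈ H := by
    intro b
    have := mem_HDstar (K := K) AlgEquiv.refl b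
    simpa using this
  have hcx : cx x ∈ H := hC _
  have hcy : cy x ∈ H := hC _
  have hcz : cz x ∈ H := hC _
  -- division by integers
  have hdiv : ∀ (n : ℕ) (f : (BB x)[X]), n ≠ 0 → (n : (BB x)[X]) * f ∈ H → f ∈ H := by
    intro n f hn hf
    have h1 : f = ((n : K)⁻¹) • ((n : (BB x)[X]) * f) := by
      rw [← nsmul_eq_mul, ← Nat.cast_smul_eq_nsmul K n f, smul_smul, inv_mul_cancel₀, one_smul]
      exact Nat.cast_ne_zero.mpr hn
    rw [h1]
    exact H.smul_mem hf _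
  -- `w z`, `w x ^ 2`, `w x`
  obtain ⟨θ1, h1y, h1z⟩ := fam1 (K := K) x 1
  obtain ⟨θ2, h2y, h2z⟩ := fam1 (K := K) x (-1)
  have m1 : θ1 (cy x) ∈ H := mem_HDstar θ1 (yy x)
  have m2 : θ2 (cy x) ∈ H := mem_HDstar θ2 (yy x)
  have m3 : θ1 (cz x) ∈ H := mem_HDstar θ1 (zz x)
  have hwz : X * cz x ∈ H := by
    apply hdiv 4 _ (by norm_num)
    have : ((4 : ℕ) : (BB x)[X]) * (X * cz x) = θ1 (cy x) - θ2 (cy x) := by
      rw [h1y, h2y]
      push_cast
      ring
    rw [this]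
    exact sub_mem m1 m2
  have hwx2 : X * cx x ^ 2 ∈ H := by
    have : X * cx x ^ 2 = θ1 (cz x) - cz x := by
      rw [h1z]
      push_cast
      ring
    rw [this]
    exact sub_mem m3 hcz
  have hwx : X * cx x ∈ H := by
    have : X * cx x = (X * cx x ^ 2) * cy x - (X * cz x) * cz x := by
      linear_combination X * cz_sq x
    rw [this]
    exact sub_mem (mul_mem hwx2 hcy) (mul_mem hwz hcz)
  -- `g`
  obtain ⟨θ3, h3⟩ := fam2 (K := K) hx 1
  obtain ⟨θ4, h4⟩ := fam2 (K := K) hx (-1)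
  have m4 : θ3 (cy x) ∈ H := mem_HDstar θ3 (yy x)
  have m5 : θ4 (cy x) ∈ H := mem_HDstar θ4 (yy x)
  have m6 : sig K x (θ3 (cy x)) ∈ H := mem_HDstar (θ3.trans (sig K x)) (yy x)
  have m7 : sig K x (θ4 (cy x)) ∈ H := mem_HDstar (θ4.trans (sig K x)) (yy x)
  have hg : gg x ∈ H := by
    apply hdiv 2 _ (by norm_num)
    have : ((2 : ℕ) : (BB x)[X]) * gg x = θ3 (cy x) - θ4 (cy x) := by
      rw [h3, h4]
      push_cast
      ring
    rw [this]
    exact sub_mem m4 m5
  have hsg : sig K x (gg x) ∈ H := by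
    apply hdiv 2 _ (by norm_num)
    have : ((2 : ℕ) : (BB x)[X]) * sig K x (gg x) =
        sig K x (θ3 (cy x)) - sig K x (θ4 (cy x)) := by
      rw [← map_sub, h3, h4]
      have h5 : cy x + ((1 : ℤ) : (BB x)[X]) * gg x + ((1 : ℤ) : (BB x)[X]) ^ 2 * qq x ^ 2 -
        (cy x + ((-1 : ℤ) : (BB x)[X]) * gg x + ((-1 : ℤ) : (BB x)[X]) ^ 2 * qq x ^ 2) =
          2 * gg x := by
        push_cast
        ring
      rw [h5, map_mul, map_ofNat]
      push_cast
      ring
    rw [this]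
    exact sub_mem m6 m7
  have hsgg : sig K x (gg x) = 2 * cz x * cy x - 4 * (cx x * cy x - 1) * X
      + 2 * cz x * X ^ 2 := by
    unfold gg
    have e1 : sig K x (cx x) = cx x := sig_C _
    have e2 : sig K x (cy x) = cy x := sig_C _
    have e3 : sig K x (cz x) = cz x := sig_C _
    simp only [map_add, map_mul, map_sub, map_pow, map_ofNat, map_one, e1, e2, e3, sig_X]
    ring
  apply hdiv 8 _ (by norm_num)
  have : ((8 : ℕ) : (BB x)[X]) * X = 8 * ((X * cx x) * cy x) - (gg x - sig K x (gg x)) := by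
    rw [hsgg]
    unfold gg
    push_cast
    ring
  rw [this]
  apply sub_mem
  · apply mul_mem _ (mul_mem hwx hcy)
    have := hC 8
    simpa using this
  · exact sub_mem hg hsg

end Pool.Agent.LibTypeA
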