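import Mathlib
import Pool.Agent.LibTypeA.Ring

set_option autoImplicit false

namespace Pool.Agent.LibTypeA

open Polynomial

universe u

variable {K R : Type u} [Field K] [CommRing R] [Algebra K R] {x : R}

theorem pp_C (r : R) : pp x (C r) = cc x r := rfl
theorem pp_X : pp x X = yy x := rfl

theorem pp_smulC (r : R) (p : R[X]) : pp x (C r * p) = cc x r * pp x p := by
  rw [pp_mul, pp_C]

theorem pp_pow (p : R[X]) (n : ℕ) : pp x (p ^ n) = pp x p ^ n := by
  induction n with
  | zero => ext1 <;> simp [pp, re_one', im_one']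
  | succ n ih => rw [pow_succ, pow_succ, pp_mul, ih]

theorem cc_mul (r s : R) : cc x (r * s) = cc x r * cc x s := by
  rw [← pp_C, C_mul, pp_mul]; rfl

theorem cc_natCast (n : ℕ) : cc x (n : R) = (n : BB x) := by
  ext1
  · show C (n : R) = (n : R[X])
    simp
  · rfl

theorem D_pp (D : Derivation K (BB x) (BB x)) (hR : ∀ r, D (cc x r) = 0) (p : R[X]) :
    D (pp x p) = pp x (derivative p) * D (yy x) := by
  induction p using Polynomial.induction_on' with
  | add p q hp hq => rw [pp_add, map_add, hp, hq, derivative_add, pp_add, add_mul]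
  | monomial n r =>
    rw [← Polynomial.C_mul_X_pow_eq_monomial, pp_smulC, pp_pow, pp_X, D.leibniz, hR,
      D.leibniz_pow, derivative_C_mul_X_pow, pp_smulC, pp_pow, pp_X, cc_mul, cc_natCast]
    simp only [smul_eq_mul, nsmul_eq_mul, mul_zero, add_zero]
    ring

theorem D_yy (D : Derivation K (BB x) (BB x)) (hR : ∀ r, D (cc x r) = 0) :
    (cc x x) ^ 2 * D (yy x) = 2 * zz x * D (zz x) := by
  have h := congrArg D (zz_sq x)
  rw [sq, D.leibniz, D.leibniz, map_sub, D.leibniz, hR, D.map_one_eq_zero] at h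
  simp only [smul_eq_mul, mul_zero, add_zero, sub_zero] at h
  rw [sq, mul_assoc, ← h]
  ring

theorem EE_eq (b : BB x) : EE b = pp x (2 * (aa x * derivative b.im) + C (x ^ 2) * b.im) +
    pp x (2 * derivative b.re) * zz x := BB_decomp (EE b)

theorem zz_mul_zz : zz x * zz x = pp x (aa x) := by
  ext1
  · rw [re_mul']; simp [zz, pp]
  · rw [im_mul']; simp [zz, pp]

theorem pp_two (p : R[X]) : pp x (2 * p) = 2 * pp x p := by
  rw [two_mul, two_mul, pp_add]

theorem D_formula (D : Derivation K (BB x) (BB x)) (hR : ∀ r, D (cc x r) = 0) (b : BB x) :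
    (cc x x) ^ 2 * D b = D (zz x) * EE b := by
  conv_lhs => rw [BB_decomp b]
  rw [map_add, D.leibniz, D_pp D hR, D_pp D hR, EE_eq, pp_add, pp_two, pp_two, pp_mul,
    pp_smulC, ← zz_mul_zz]
  have h1 : cc x (x ^ 2) = (cc x x) ^ 2 := by rw [sq, cc_mul, sq]
  rw [h1]
  have h2 := D_yy D hR
  simp only [smul_eq_mul]
  linear_combination (pp x (derivative b.re) + zz x * pp x (derivative b.im)) * h2

variable [IsDomain R] [CharZero R]

omit [CharZero R] in
theorem norm_cc_sq (hx : x ≠ 0) : (QuadraticAlgebra.norm ((cc x x) ^ 2)).natDegree = 0 ∧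
    QuadraticAlgebra.norm ((cc x x) ^ 2) ≠ 0 := by
  have h1 : (QuadraticAlgebra.norm (cc x x)) = C (x ^ 2) := by
    rw [norm_eq]
    show (C x) ^ 2 - aa x * (0 : R[X]) ^ 2 = C (x ^ 2)
    rw [C_pow]; ring
  rw [map_pow, h1, ← C_pow]
  exact ⟨natDegree_C _, by
    rw [Ne, C_eq_zero]
    exact pow_ne_zero 2 (pow_ne_zero 2 hx)⟩

theorem D_zz_const (hx : x ≠ 0) (D : Derivation K (BB x) (BB x)) (hD : IsLND D)
    (hR : ∀ r, D (cc x r) = 0) : ∃ r0 : R, D (zz x) = cc x r0 := by
  have := isDomain_BB hx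
  by_cases h0 : D (zz x) = 0
  · refine ⟨0, ?_⟩
    rw [h0]
    ext1 <;> simp [cc]
  have hstep : ∀ b : BB x, (QuadraticAlgebra.norm b).natDegree ≠ 0 →
      (QuadraticAlgebra.norm (D b)).natDegree + 1 =
        (QuadraticAlgebra.norm (D (zz x))).natDegree + (QuadraticAlgebra.norm b).natDegree := by
    intro b hb
    obtain ⟨h1, h2⟩ := dg_EE hx hb
    have h3 := congrArg QuadraticAlgebra.norm (D_formula D hR b)
    rw [map_mul, map_mul] at h3
    have h4 := congrArg natDegree h3
    have h5 : D b ≠ 0 := by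
      intro h6
      rw [h6, QuadraticAlgebra.norm_zero, mul_zero] at h3
      exact mul_ne_zero (norm_ne_zero hx h0) (norm_ne_zero hx h1) h3.symm
    rw [natDegree_mul (norm_cc_sq hx).2 (norm_ne_zero hx h5),
      natDegree_mul (norm_ne_zero hx h0) (norm_ne_zero hx h1), (norm_cc_sq hx).1, zero_add] at h4
    omega
  have hzz : (QuadraticAlgebra.norm (zz x)).natDegree = 1 := by
    rw [dg_im hx (b := zz x)]
    · show 2 * (1 : R[X]).natDegree + 1 = 1
      simp
    · exact one_ne_zero
    · show (0 : R[X]).natDegree ≤ _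
      simp
  have hd0 : (QuadraticAlgebra.norm (D (zz x))).natDegree = 0 := by
    by_contra hpos
    have hall : ∀ n : ℕ, (QuadraticAlgebra.norm ((⇑D)^[n] (zz x))).natDegree ≠ 0 := by
      intro n
      induction n with
      | zero =>
        show (QuadraticAlgebra.norm (zz x)).natDegree ≠ 0
        omega
      | succ n ih =>
        rw [Function.iterate_succ_apply']
        have := hstep _ ih
        omega
    obtain ⟨n, hn⟩ := hD (zz x)
    have := hall n
    rw [hn, QuadraticAlgebra.norm_zero] at this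
    simp at this
  -- degree zero means constant
  by_cases him : (D (zz x)).im = 0
  · have h1 := dg_re hx (Or.inl him)
    rw [hd0] at h1
    have h2 : (D (zz x)).re.natDegree = 0 := by omega
    refine ⟨(D (zz x)).re.coeff 0, ?_⟩
    ext1
    · show _ = C _
      exact eq_C_of_natDegree_eq_zero h2
    · exact him
  · exfalso
    rcases le_or_gt (D (zz x)).re.natDegree (D (zz x)).im.natDegree with h1 | h1
    · have := dg_im hx him h1
      omega
    · have := dg_re hx (Or.inr h1)
      omega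

/-- All locally nilpotent derivations vanish at the points `x = z = 0`. -/
theorem D_vanish (hx : x ≠ 0) (ε : R →ₐ[K] K) (hε : ε x = 0) [CharZero K]
    (D : Derivation K (BB x) (BB x)) (hD : IsLND D)
    (hR : ∀ r, D (cc x r) = 0) (p : BB x →ₐ[K] K) (hp : ∀ r, p (cc x r) = ε r)
    (hpz : p (zz x) = 0) (b : BB x) : p (D b) = 0 := by
  obtain ⟨r0, hr0⟩ := D_zz_const hx D hD hR
  have h1 := D_yy D hR
  rw [hr0] at h1
  -- components of D y
  have h2 : (cc x x) ^ 2 * D (yy x) = ⟨C (x ^ 2) * (D (yy x)).re, C (x ^ 2) * (D (yy x)).im⟩ := by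
    have h3 : (cc x x) ^ 2 = cc x (x ^ 2) := by rw [sq, sq, cc_mul]
    rw [h3]
    ext1
    · rw [re_mul']; simp [cc]
    · rw [im_mul']; simp [cc]
  have h3 : 2 * zz x * cc x r0 = ⟨0, C (2 * r0)⟩ := by
    have h4 : (2 : BB x) = cc x 2 := (cc_natCast 2).symm
    rw [h4]
    ext1
    · rw [re_mul', re_mul', im_mul']; simp [cc, zz]
    · rw [im_mul', re_mul', im_mul']; simp [cc, zz]
  rw [h2, h3] at h1
  have h4 : C (x ^ 2) * (D (yy x)).re = 0 := congrArg QuadraticAlgebra.re h1
  have h5 : C (x ^ 2) * (D (yy x)).im = C (2 * r0) := congrArg QuadraticAlgebra.im h1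
  have hx2 : (C (x ^ 2) : R[X]) ≠ 0 := by
    rw [Ne, C_eq_zero]; exact pow_ne_zero 2 hx
  have h6 : (D (yy x)).re = 0 := by
    rcases mul_eq_zero.mp h4 with h | h
    · exact absurd h hx2
    · exact h
  have h7 : x ^ 2 * (D (yy x)).im.coeff 0 = 2 * r0 := by
    have h := congrArg (fun q => coeff q 0) h5
    simp only [coeff_C_mul, coeff_C_zero] at h
    exact h
  have h8 : ε r0 = 0 := by
    have h9 := congrArg ε h7
    rw [map_mul, map_mul, map_pow, hε, map_ofNat] at h9
    simpa using h9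
  have hDy : p (D (yy x)) = 0 := by
    rw [BB_decomp (D (yy x)), h6, map_add, map_mul, hpz, mul_zero, add_zero]
    have : pp x (0 : R[X]) = 0 := by ext1 <;> simp [pp]
    rw [this, map_zero]
  have hDz : p (D (zz x)) = 0 := by rw [hr0, hp, h8]
  rw [BB_decomp b, map_add, D.leibniz, D_pp D hR, D_pp D hR]
  simp only [smul_eq_mul, map_add, map_mul]
  rw [hDy, hDz, hpz]
  ring

end Pool.Agent.LibTypeA
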